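import Pool.Agent.H42.XS.Targets
import Pool.Agent.H60.SYM.Core
import Pool.Agent.H2.SYM.IND
import Pool.Agent.H54.SYM.Ext
import Pool.Agent.H99.SYM.Val

/-!
Circuits symmetric under exchanges of literals (MP_c62aed_lc), row CORX: a symmetric circuit does
not separate the two formulas.
-/

set_option autoImplicit false

namespace Pool.Agent.H77.XS.CORX

open Finset Pool.Agent.H60.SYM Pool.Agent.H42.XS

theorem fml_iff {M n d : ℕ} (e : Fin M → Fin (d + 1) → Fin n) (c : Fin M → ZMod 2)
    (D : Cl n (d + 1)) :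
    fml e c D = true ↔ ∃ i a, ∑ p, a p = c i + 1 ∧ D = cla (e i) a := by
  unfold fml
  rw [decide_eq_true_iff]

theorem pair_comb {M n d : ℕ} (e : Fin M → Fin (d + 1) → Fin n) (y : Fin M → ZMod 2)
    (f : Fin n → ZMod 2) : pair (comb e y) f = ∑ i, y i * ∑ p, f (e i p) := by
  unfold pair comb
  simp only [Finset.sum_mul, Finset.mul_sum]
  rw [Finset.sum_comm]
  refine Finset.sum_congr rfl fun i _ => ?_
  rw [Finset.sum_comm]
  refine Finset.sum_congr rfl fun p _ => ?_
  simp [ite_mul]

/-- the pairing of conditions and exchanges -/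
def NU {M n d : ℕ} (e : Fin M → Fin (d + 1) → Fin n)
    (U : Submodule (ZMod 2) (Fin n → ZMod 2)) :
    (Fin M → ZMod 2) →ₗ[ZMod 2] U →ₗ[ZMod 2] ZMod 2 :=
  LinearMap.mk₂ (ZMod 2) (fun y u => ∑ i, y i * ∑ p, (u : Fin n → ZMod 2) (e i p))
    (by
      intro y y' u
      simp only [Pi.add_apply, add_mul, sum_add_distrib])
    (by
      intro r y u
      simp only [Pi.smul_apply, smul_eq_mul, mul_sum]
      refine sum_congr rfl fun i _ => sum_congr rfl fun p _ => by ring)
    (by
      intro y u u'
      simp only [Submodule.coe_add, Pi.add_apply, mul_add, sum_add_distrib])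
    (by
      intro r y u
      simp only [Submodule.coe_smul, Pi.smul_apply, smul_eq_mul, mul_sum]
      refine sum_congr rfl fun i _ => sum_congr rfl fun p _ => by ring)

theorem NU_apply {M n d : ℕ} (e : Fin M → Fin (d + 1) → Fin n)
    (U : Submodule (ZMod 2) (Fin n → ZMod 2)) (y : Fin M → ZMod 2) (u : U) :
    NU e U y u = pair (comb e y) (u : Fin n → ZMod 2) := (pair_comb e y _).symm

/-- the right hand side -/
def CU {M : ℕ} (c : Fin M → ZMod 2) : (Fin M → ZMod 2) →ₗ[ZMod 2] ZMod 2 where
  toFun y := ∑ j, y j * c j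
  map_add' y y' := by
    simp only [Pi.add_apply, add_mul, sum_add_distrib]
  map_smul' r y := by
    simp only [Pi.smul_apply, smul_eq_mul, RingHom.id_apply, mul_sum, mul_assoc]

theorem wt_single {M : ℕ} (i : Fin M) : wt (Pi.single i 1 : Fin M → ZMod 2) = 1 := by
  classical
  unfold wt
  rw [Finset.card_eq_one]
  refine ⟨i, ?_⟩
  ext j
  simp only [mem_filter, mem_univ, true_and, mem_singleton]
  constructor
  · intro h
    by_contra hj
    exact h (by rw [Pi.single_apply, if_neg hj])
  · rintro rfl
    rw [Pi.single_eq_same]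
    decide

theorem zz (a : ZMod 2) : a + a = 0 := by
  revert a
  decide

/-- Row CORX -/
theorem pf_CORX (hEX : T_EX) (hCLA : T_CLA) : T_CORX := by
  classical
  intro M n d s θ e U C c he hSym hθ hperp hav
  obtain ⟨hE1, hE2, -⟩ := hEX n (d + 1)
  obtain ⟨hC1, hC2, -, -⟩ := hCLA n d
  have hIND := Pool.Agent.H2.SYM.ind Pool.Agent.H99.SYM.val Pool.Agent.H99.SYM.aut
    Pool.Agent.H54.SYM.ext
  refine hIND (Cl n (d + 1)) s C U (Fin M → ZMod 2) (fun u => exch (u : Fin n → ZMod 2))
    (NU e U) (CU c) wt θ (fml e 0) (fml e c) ?_ ?_ ?_ wt_zero' wt_add_le' ?_ ?_ ?_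
  · intro v v' D
    exact hE1 _ _ D
  · intro D
    exact hE2 D
  · intro v
    exact hSym v v.2
  · intro g y h1 h2
    have h3 := hav y h1 h2
    unfold Avail at h3
    push Not at h3
    obtain ⟨f, hf, a, h4, h5, h6⟩ := h3 g
    refine ⟨⟨f, hf⟩, a, h4, h5, ?_⟩
    rw [NU_apply]
    exact h6
  · intro D v hv
    -- the condition for the equation of a clause
    have key : ∀ (i : Fin M) (a : Fin (d + 1) → ZMod 2), D = cla (e i) a →
        ∑ p, (v : Fin n → ZMod 2) (e i p) = c i := by
      intro i a hD
      have hN : ∀ u : U, NU e U (Pi.single i 1) u = ∑ p, (u : Fin n → ZMod 2) (e i p) := by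
        intro u
        change ∑ j, (Pi.single i 1 : Fin M → ZMod 2) j * ∑ p, (u : Fin n → ZMod 2) (e j p) = _
        rw [Finset.sum_eq_single i]
        · rw [Pi.single_eq_same, one_mul]
        · intro j _ hj
          rw [Pi.single_apply, if_neg hj, zero_mul]
        · intro h
          exact absurd (mem_univ i) h
      have h1 := hv (Pi.single i 1) (by rw [wt_single]; exact hθ) (by
        intro u hu
        rw [hN]
        have h2 : cla (e i) (fun p => a p + (u : Fin n → ZMod 2) (e i p)) = cla (e i) a := by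
          rw [← hC2, ← hD]
          exact hu
        have h3 := (hC1 _ _ _ _ (he.1 i) h2).2 rfl
        refine Finset.sum_eq_zero fun p _ => ?_
        have h4 := congrFun h3 p
        simpa using h4)
      rw [hN] at h1
      rw [h1]
      change ∑ j, (Pi.single i 1 : Fin M → ZMod 2) j * c j = _
      rw [Finset.sum_eq_single i]
      · rw [Pi.single_eq_same, one_mul]
      · intro j _ hj
        rw [Pi.single_apply, if_neg hj, zero_mul]
      · intro h
        exact absurd (mem_univ i) h
    have hiff : fml e 0 D = true ↔ fml e c (exch (v : Fin n → ZMod 2) D) = true := by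
      rw [fml_iff, fml_iff]
      constructor
      · rintro ⟨i, a, ha, hD⟩
        refine ⟨i, fun p => a p + (v : Fin n → ZMod 2) (e i p), ?_, ?_⟩
        · rw [Finset.sum_add_distrib, key i a hD, ha, Pi.zero_apply, zero_add, add_comm]
        · rw [hD, hC2]
      · rintro ⟨i, a, ha, hD⟩
        have h1 : D = cla (e i) (fun p => a p + (v : Fin n → ZMod 2) (e i p)) := by
          rw [← hC2, ← hD, ← hE1]
          have h2 : (v : Fin n → ZMod 2) + (v : Fin n → ZMod 2) = 0 := funext fun j => zz _
          rw [h2, hE2]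
        refine ⟨i, fun p => a p + (v : Fin n → ZMod 2) (e i p), ?_, h1⟩
        rw [Finset.sum_add_distrib, key i _ h1, ha, Pi.zero_apply, zero_add]
        have h3 : c i + 1 + c i = 1 + (c i + c i) := by ring
        rw [h3, zz, add_zero]
    exact Bool.eq_iff_iff.2 hiff
  · intro y hy hN
    by_cases h0 : y = 0
    · rw [h0, map_zero]
    · exfalso
      refine hperp y h0 hy fun f hf => ?_
      have h1 := congrArg (fun l => l (⟨f, hf⟩ : U)) hN
      change NU e U y ⟨f, hf⟩ = 0 at h1
      rw [NU_apply] at h1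
      exact h1

end Pool.Agent.H77.XS.CORX
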