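import Pool.Agent.H42.XS.Targets

/-!
Circuits symmetric under exchanges of literals (MP_c62aed_lc), row SIZ: numbers of clauses.
-/

set_option autoImplicit false

namespace Pool.Agent.H77.XS

open Finset Pool.Agent.H60.SYM Pool.Agent.H42.XS

theorem fml_iff {M n d : ℕ} (e : Fin M → Fin (d + 1) → Fin n) (c : Fin M → ZMod 2)
    (D : Cl n (d + 1)) :
    fml e c D = true ↔ ∃ i a, ∑ p, a p = c i + 1 ∧ D = cla (e i) a := by
  unfold fml
  rw [decide_eq_true_iff]

theorem cla_inj (hCLA : T_CLA) {M n d : ℕ} {e : Fin M → Fin (d + 1) → Fin n} (he : Dist e)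
    {i j : Fin M} {a b : Fin (d + 1) → ZMod 2} (h : cla (e i) a = cla (e j) b) :
    i = j ∧ a = b := by
  obtain ⟨h1, -⟩ := hCLA n d
  obtain ⟨h2, h3⟩ := h1 (e i) (e j) a b (he.1 i) h
  have h4 := he.2 i j h2
  subst h4
  exact ⟨rfl, h3 rfl⟩

theorem z1 (s c : ZMod 2) : s + c + 1 + s = c + 1 := by
  revert s c
  decide

theorem z2 (a s c : ZMod 2) (h : a + s = c + 1) : a = s + c + 1 := by
  revert a s c
  decide

theorem z3 (s c : ZMod 2) : s ≠ c ↔ s = c + 1 := by
  revert s c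
  decide

/-- Row SIZ -/
theorem pf_SIZ (hCLA : T_CLA) : T_SIZ := by
  classical
  intro M n d e he c
  obtain ⟨-, -, hC3, hC4⟩ := hCLA n d
  refine ⟨?_, ?_, ?_, ?_⟩
  · have h1 : M * 2 ^ d = Nat.card (Fin M × (Fin d → ZMod 2)) := by
      rw [Nat.card_prod, Nat.card_eq_fintype_card, Nat.card_eq_fintype_card, Fintype.card_fin,
        Fintype.card_fun, Fintype.card_fin, ZMod.card]
    unfold size
    rw [h1]
    symm
    have hs : ∀ (i : Fin M) (z : Fin d → ZMod 2),
        ∑ p, (Fin.cons (∑ p, z p + c i + 1) z : Fin (d + 1) → ZMod 2) p = c i + 1 := by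
      intro i z
      rw [Fin.sum_univ_succ]
      simp only [Fin.cons_zero, Fin.cons_succ]
      exact z1 _ _
    refine Nat.card_eq_of_bijective (fun iz : Fin M × (Fin d → ZMod 2) =>
      (⟨cla (e iz.1) (Fin.cons (∑ p, iz.2 p + c iz.1 + 1) iz.2),
        (fml_iff e c _).2 ⟨iz.1, _, hs iz.1 iz.2, rfl⟩⟩ : {D // fml e c D = true})) ⟨?_, ?_⟩
    · rintro ⟨i, z⟩ ⟨j, w⟩ h
      obtain ⟨h2, h3⟩ := cla_inj hCLA he (congrArg Subtype.val h)
      have h4 : z = w := by
        funext p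
        have h5 := congrFun h3 p.succ
        simpa using h5
      have h6 : i = j := h2
      rw [h6, h4]
    · rintro ⟨D, hD⟩
      obtain ⟨i, a, ha, rfl⟩ := (fml_iff e c D).1 hD
      refine ⟨(i, fun p => a p.succ), Subtype.ext ?_⟩
      have h2 : (Fin.cons (∑ p : Fin d, a p.succ + c i + 1) (fun p => a p.succ) :
          Fin (d + 1) → ZMod 2) = a := by
        funext p
        refine Fin.cases ?_ (fun p => ?_) p
        · rw [Fin.cons_zero]
          rw [Fin.sum_univ_succ] at ha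
          exact (z2 _ _ _ ha).symm
        · rw [Fin.cons_succ]
      change cla (e i) (Fin.cons (∑ p : Fin d, a p.succ + c i + 1) (fun p => a p.succ)) = _
      rw [h2]
  · intro D hD
    obtain ⟨i, a, -, rfl⟩ := (fml_iff e c D).1 hD
    exact hC3 _ _ (he.1 i)
  · intro x
    have h1 : (univ.filter fun i => ∑ p, toZ (x (e i p)) ≠ c i).card =
        Nat.card {i : Fin M // ∑ p, toZ (x (e i p)) ≠ c i} := by
      rw [Nat.card_eq_fintype_card, Fintype.card_subtype]
    rw [h1]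
    unfold viol
    symm
    refine Nat.card_eq_of_bijective (fun i : {i : Fin M // ∑ p, toZ (x (e i p)) ≠ c i} =>
      (⟨cla (e i.1) (fun p => toZ (x (e i.1 p))),
        (fml_iff e c _).2 ⟨i.1, _, (z3 _ _).1 i.2, rfl⟩,
        (hC4 _ _ _).2 fun p => rfl⟩ : {D // fml e c D = true ∧ Violated x D})) ⟨?_, ?_⟩
    · rintro ⟨i, hi⟩ ⟨j, hj⟩ h
      obtain ⟨h2, -⟩ := cla_inj hCLA he (congrArg Subtype.val h)
      exact Subtype.ext h2
    · rintro ⟨D, hD, hv⟩
      obtain ⟨i, a, ha, rfl⟩ := (fml_iff e c D).1 hD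
      have h2 : (fun p => toZ (x (e i p))) = a := funext ((hC4 _ _ _).1 hv)
      refine ⟨⟨i, ?_⟩, Subtype.ext ?_⟩
      · rw [z3, ← ha, ← h2]
      · change cla (e i) (fun p => toZ (x (e i p))) = _
        rw [h2]
  · refine ⟨fun _ => false, fun D hD hv => ?_⟩
    obtain ⟨i, a, ha, rfl⟩ := (fml_iff e 0 D).1 hD
    have h2 := (hC4 _ _ _).1 hv
    have h3 : ∑ p, a p = 0 := by
      refine Finset.sum_eq_zero fun p _ => ?_
      rw [← h2 p]
      rfl
    rw [h3] at ha
    simp at ha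

end Pool.Agent.H77.XS
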